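import Pool.Agent.R263.HyperFam

/-!
# Haar weights of polynomial hypergroups

The inequality `h(n) ≥ 2` (`n ≥ 2`) fails for `n = 2`: for every `δ > 0` there is a (symmetric)
polynomial hypergroup on `ℕ₀` with `h(2) < 1 + δ`.
-/

set_option autoImplicit false

namespace Pool.Agent.Results.MP_382e70_an.HaarWeights

open Polynomial Finset

/-- The polynomial `P_1 = (X - b_0) / a_0`. -/
noncomputable def P1 (a b : ℕ → ℝ) : ℝ[X] := C (a 0)⁻¹ * (X - C (b 0))

/-- The polynomials of the recurrence: `P_0 = 1`, `P_1 = (X - b_0) / a_0` and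
`a_{n+1} P_{n+2} = P_1 P_{n+1} - b_{n+1} P_{n+1} - c_{n+1} P_n`. -/
noncomputable def P (a b c : ℕ → ℝ) : ℕ → ℝ[X]
  | 0 => 1
  | 1 => P1 a b
  | (n + 2) => C (a (n + 1))⁻¹ *
      (P1 a b * P a b c (n + 1) - C (b (n + 1)) * P a b c (n + 1) - C (c (n + 1)) * P a b c n)

/-- The sequences `a, b, c` satisfy the conditions of the setting and the polynomials `P_n` induce a
polynomial hypergroup on `ℕ₀`: every product `P_m P_n` is a combination of
`P_{|m-n|}, …, P_{m+n}` with nonnegative coefficients (the coefficients are unique, since `P_k` has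
degree `k`). -/
structure IsPolynomialHypergroup (a b c : ℕ → ℝ) : Prop where
  a_pos : ∀ n, 0 < a n
  b_nonneg : ∀ n, 0 ≤ b n
  c_zero : c 0 = 0
  c_pos : ∀ n, 1 ≤ n → 0 < c n
  sum_one : ∀ n, a n + b n + c n = 1
  linearization : ∀ m n : ℕ, ∃ g : ℕ → ℝ, (∀ k, 0 ≤ g k) ∧
    P a b c m * P a b c n =
      ∑ k ∈ Icc (max m n - min m n) (m + n), C (g k) * P a b c k

/-- The Haar weights `h(n) = (∏_{k=1}^{n-1} a_k) / (∏_{k=1}^n c_k)` for `n ≥ 1`. -/
noncomputable def haar (a c : ℕ → ℝ) (n : ℕ) : ℝ :=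
  (∏ k ∈ Icc 1 (n - 1), a k) / ∏ k ∈ Icc 1 n, c k

lemma P_eq (a b c : ℕ → ℝ) (h0 : a 0 = 1) (hb : b 0 = 0) (n : ℕ) :
    P a b c n = Pool.Agent.R263.Hyp.ops a b c n := by
  have h1 : P1 a b = X := by simp [P1, h0, hb]
  induction n using Nat.strong_induction_on with
  | _ n ih =>
    match n with
    | 0 => rfl
    | 1 => rfl
    | (n + 2) =>
      rw [P, Pool.Agent.R263.Hyp.ops, ih (n + 1) (by omega), ih n (by omega), h1]

/-- For every `δ > 0` there are a polynomial hypergroup on `ℕ₀` and an integer `n ≥ 2` (namely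
`n = 2`) with `h(n) < 1 + δ`. -/
theorem result : ∀ δ : ℝ, 0 < δ → ∃ a b c : ℕ → ℝ,
    IsPolynomialHypergroup a b c ∧ haar a c 2 < 1 + δ := by
  intro δ hδ
  obtain ⟨e, h0, h1, hlt⟩ := Pool.Agent.R263.Hyp.h2_lt hδ
  refine ⟨Pool.Agent.R263.Hyp.aa e, fun _ => 0, Pool.Agent.R263.Hyp.cc e, ?_, ?_⟩
  · refine ⟨Pool.Agent.R263.Hyp.aa_pos h0 h1, fun _ => le_rfl, by simp [Pool.Agent.R263.Hyp.cc],
      Pool.Agent.R263.Hyp.cc_pos h0 h1, ?_, ?_⟩
    · intro n
      simp [Pool.Agent.R263.Hyp.aa]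
    · intro m n
      obtain ⟨g, hg, hs⟩ := Pool.Agent.R263.Hyp.linearization h0 h1 m n
      refine ⟨g, hg, ?_⟩
      simp only [P_eq _ (fun _ => (0 : ℝ)) _ (Pool.Agent.R263.Hyp.aa_zero e) rfl]
      exact hs
  · have hc1 := Pool.Agent.R263.Hyp.cc_one e
    have hc2 := Pool.Agent.R263.Hyp.cc_two e
    have hval : haar (Pool.Agent.R263.Hyp.aa e) (Pool.Agent.R263.Hyp.cc e) 2 =
        (1 + e) / ((1 - e) * (1 - 2 * e)) := by
      unfold haar
      rw [show Icc 1 2 = ({1, 2} : Finset ℕ) by decide, show Icc 1 (2 - 1) = ({1} : Finset ℕ) by decide]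
      rw [prod_pair (by norm_num), prod_singleton, hc1, hc2]
      unfold Pool.Agent.R263.Hyp.aa
      rw [hc1]
      have : (1 - e) ≠ 0 := by linarith
      have : (1 - 2 * e) ≠ 0 := by linarith
      field_simp
      ring
    rw [hval]
    exact hlt

end Pool.Agent.Results.MP_382e70_an.HaarWeights
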